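import Pool.Agent.W680.WH.Stm

/-!
# WHH-ALG: pure algebra of recursions
-/

set_option autoImplicit false

namespace Pool.Agent.W612.WH

open Pool.Agent.W680.WH

/-- two consecutive zeros -/
lemma two_zero (r : ℝ) (hr0 : 0 < r) (y f : ℤ → ℂ) (c : ℂ) (hc : c ≠ 0)
    (hY : ∀ k : ℤ, (1 - (r : ℂ) ^ 2) * y k * f k = c * (f k + r * f (k + 1)
      + r * (f (k - 1) + r * f k))) (hne : ∃ k, f k ≠ 0) (k : ℤ) (e0 : f k = 0)
    (e1 : f (k + 1) = 0) : False := by
  have hrc : (r : ℂ) ≠ 0 := by exact_mod_cast hr0.ne'
  have up : ∀ j : ℕ, f (k + j) = 0 ∧ f (k + j + 1) = 0 := by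
    intro j
    induction j with
    | zero => simpa using ⟨e0, e1⟩
    | succ j ih =>
      obtain ⟨a, b⟩ := ih
      have h1 := hY (k + j + 1)
      have e : k + (j : ℤ) + 1 - 1 = k + j := by ring
      rw [e, a, b] at h1
      have h2 : c * (r * f (k + j + 1 + 1)) = 0 := by
        linear_combination -h1
      have h3 : f (k + j + 1 + 1) = 0 := by
        rcases mul_eq_zero.1 h2 with h | h
        · exact absurd h hc
        · rcases mul_eq_zero.1 h with h | h
          · exact absurd h hrc
          · exact h
      push_cast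
      rw [← add_assoc]
      exact ⟨b, h3⟩
  have down : ∀ j : ℕ, f (k - j) = 0 ∧ f (k - j + 1) = 0 := by
    intro j
    induction j with
    | zero => simpa using ⟨e0, e1⟩
    | succ j ih =>
      obtain ⟨a, b⟩ := ih
      have h1 := hY (k - j)
      rw [a, b] at h1
      have h2 : c * (r * f (k - j - 1)) = 0 := by
        linear_combination -h1
      have h3 : f (k - j - 1) = 0 := by
        rcases mul_eq_zero.1 h2 with h | h
        · exact absurd h hc
        · rcases mul_eq_zero.1 h with h | h
          · exact absurd h hrc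
          · exact h
      push_cast
      have e : k - ((j : ℤ) + 1) = k - j - 1 := by ring
      have e' : k - ((j : ℤ) + 1) + 1 = k - j := by ring
      rw [e', e]
      exact ⟨h3, a⟩
  obtain ⟨k', hk'⟩ := hne
  apply hk'
  rcases le_total k k' with hle | hle
  · obtain ⟨j, hj⟩ := Int.eq_ofNat_of_zero_le (sub_nonneg.2 hle)
    have : k' = k + j := by linarith
    rw [this]
    exact (up j).1
  · obtain ⟨j, hj⟩ := Int.eq_ofNat_of_zero_le (sub_nonneg.2 hle)
    have : k' = k - j := by linarith
    rw [this]
    exact (down j).1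

theorem alg : S_ALG := by
  intro r q ν y h hr0 hr1 hν hq hne hQ hY hL hqN hyN
  have hrc : (r : ℂ) ≠ 0 := by exact_mod_cast hr0.ne'
  have h1r : (1 - (r : ℂ) ^ 2) ≠ 0 := by
    have h1 : (1 - r ^ 2 : ℝ) ≠ 0 := by nlinarith
    exact_mod_cast h1
  have hA : ∀ n, y n ≠ 0 → ∀ k, h n k = 0 → h n (k + 1) = 0 → False := fun n hy k e0 e1 =>
    two_zero r hr0 y (h n) (y n) hy (hY n) (hne n) k e0 e1
  have hq1 : ∀ n, (1 - (q n : ℂ)) ≠ 0 := by
    intro n
    have h1 : (1 - q n : ℝ) ≠ 0 := by
      rw [hq n]
      have := div_pos (hν n) (hν (n + 1))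
      linarith
    exact_mod_cast h1
  -- case I: the values near the diagonal
  have hI : ∀ n, q n ≠ 0 → y n ≠ 0 →
      h n (n - 1) = -r * h n n ∧ h n (n + 1) = -r * h n n ∧ h n n ≠ 0 := by
    intro n hqn hyn
    have hqc : (q n : ℂ) ≠ 0 := by exact_mod_cast hqn
    have E1 := hQ n n
    have E2 := hY n n
    have F1 : (1 - (r : ℂ) ^ 2) * h n n = h n n + r * h n (n + 1)
      + r * (1 - (q n : ℂ)) * (h n (n - 1) + r * h n n) := by
      apply mul_left_cancel₀ hqc
      linear_combination E1
    have F2 : (1 - (r : ℂ) ^ 2) * h n n = h n n + r * h n (n + 1)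
      + r * (h n (n - 1) + r * h n n) := by
      apply mul_left_cancel₀ hyn
      linear_combination E2
    have G1 : h n (n - 1) + r * h n n = 0 := by
      have h1 : (r : ℂ) * ((q n : ℂ) * (h n (n - 1) + r * h n n)) = 0 := by
        linear_combination F1 - F2
      rcases mul_eq_zero.1 h1 with h | h
      · exact absurd h hrc
      · rcases mul_eq_zero.1 h with h | h
        · exact absurd h hqc
        · exact h
    have G2 : h n (n + 1) = -r * h n n := by
      apply mul_left_cancel₀ hrc
      linear_combination -F2 - (r : ℂ) * G1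
    have G3 : h n (n - 1) = -r * h n n := by linear_combination G1
    refine ⟨G3, G2, fun h0 => ?_⟩
    rw [h0, mul_zero] at G2
    exact hA n hyn n h0 G2
  -- the step
  have hstepq : ∀ n, q n ≠ 0 → y n ≠ 0 → q (n + 1) ≠ 0 := by
    intro n hqn hyn hq0
    have hqc : (q n : ℂ) ≠ 0 := by exact_mod_cast hqn
    obtain ⟨G3, G2, Gn⟩ := hI n hqn hyn
    obtain ⟨m, ⟨hnm, hqm⟩, hmin⟩ := Int.exists_least_of_bdd (P := fun m => n < m ∧ q m ≠ 0)
      ⟨n, fun z hz => hz.1.le⟩ (by
        obtain ⟨m, hm, hm2⟩ := hqN (n + 1)
        exact ⟨m, by omega, hm2⟩)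
    have hzero : ∀ k, n < k → k < m → q k = 0 := by
      intro k h1 h2
      by_contra h3
      have := hmin k ⟨h1, h3⟩
      omega
    have hval : ∀ j : ℕ, n + j + 1 ≤ m → h n (n + j) = (-r : ℂ) ^ j * h n n ∧
        h n (n + j + 1) = (-r : ℂ) ^ (j + 1) * h n n := by
      intro j
      induction j with
      | zero =>
        intro _
        simpa using G2
      | succ j ih =>
        intro hj
        push_cast at hj
        obtain ⟨a, b⟩ := ih (by omega)
        have h1 := hQ n (n + j + 1)
        have h0 : q (n + j + 1) = 0 := hzero _ (by omega) (by omega)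
        have e : n + (j : ℤ) + 1 - 1 = n + j := by ring
        rw [h0, e, a, b] at h1
        have h2 : (r : ℂ) * h n (n + j + 1 + 1) =
            (r : ℂ) * ((-r : ℂ) ^ (j + 1 + 1) * h n n) := by
          apply mul_left_cancel₀ hqc
          simp only [Complex.ofReal_zero] at h1
          linear_combination -h1
        push_cast
        rw [← add_assoc]
        exact ⟨b, mul_left_cancel₀ hrc h2⟩
    have hx : ∀ k, (q k : ℂ) * h (n + 1) k = 0 := by
      intro k
      have h1 := hQ (n + 1) k
      rw [hq0] at h1
      simp only [Complex.ofReal_zero, zero_mul] at h1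
      rw [mul_assoc] at h1
      rcases mul_eq_zero.1 h1 with h | h
      · exact absurd h h1r
      · exact h
    have hxn : h (n + 1) n = 0 := by
      rcases mul_eq_zero.1 (hx n) with h | h
      · exact absurd h hqc
      · exact h
    have hxm : h (n + 1) m = 0 := by
      rcases mul_eq_zero.1 (hx m) with h | h
      · exact absurd h (by exact_mod_cast hqm)
      · exact h
    have hxv : ∀ j : ℕ, n + j + 1 ≤ m → h (n + 1) (n + j + 1) =
        ((j : ℂ) + 1) * (-r : ℂ) ^ j * (1 - (r : ℂ) ^ 2) * h n n := by
      intro j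
      induction j with
      | zero =>
        intro hj
        have h1 := hL n (n + 1)
        rw [add_sub_cancel_right, hxn, G2] at h1
        simp only [Nat.cast_zero, add_zero, pow_zero, zero_add]
        linear_combination h1
      | succ j ih =>
        intro hj
        push_cast at hj
        have a := ih (by omega)
        obtain ⟨b1, b2⟩ := hval (j + 1) (by push_cast; omega)
        push_cast at b1 b2
        rw [← add_assoc] at b1 b2
        have h1 := hL n (n + j + 1 + 1)
        have e : n + (j : ℤ) + 1 + 1 - 1 = n + j + 1 := by ring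
        rw [e, a, b1, b2] at h1
        push_cast
        rw [← add_assoc]
        linear_combination h1
    obtain ⟨d, hd⟩ := Int.eq_ofNat_of_zero_le (show 0 ≤ m - n - 1 by omega)
    have hm : m = n + d + 1 := by
      have : m - n - 1 = (d : ℤ) := hd
      linarith
    have h3 := hxv d (by omega)
    rw [← hm, hxm] at h3
    have h4 : ((d : ℂ) + 1) * (-r : ℂ) ^ d * (1 - (r : ℂ) ^ 2) * h n n ≠ 0 := by
      have a1 : ((d : ℂ) + 1) ≠ 0 := by exact_mod_cast Nat.succ_ne_zero d
      exact mul_ne_zero (mul_ne_zero (mul_ne_zero a1 (pow_ne_zero _ (neg_ne_zero.2 hrc))) h1r) Gn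
    exact h4 h3.symm
  have hstepy : ∀ n, q n ≠ 0 → y n ≠ 0 → y (n + 1) ≠ 0 := by
    intro n hqn hyn hy0
    have hqc : (q n : ℂ) ≠ 0 := by exact_mod_cast hqn
    obtain ⟨G3, G2, Gn⟩ := hI n hqn hyn
    have hq2 := hstepq n hqn hyn
    have hqc2 : (q (n + 1) : ℂ) ≠ 0 := by exact_mod_cast hq2
    have E1 := hQ n (n + 1)
    have E2 := hY n (n + 1)
    rw [add_sub_cancel_right, hy0, G2] at E2
    rw [add_sub_cancel_right, G2] at E1
    have h3 : (r : ℂ) * (1 - (r : ℂ) ^ 2) * (q (n + 1) : ℂ) * (1 - (q n : ℂ)) * y n * h n n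
        = 0 := by
      linear_combination -(y n) * E1 + (q n : ℂ) * E2
    have h4 : (r : ℂ) * (1 - (r : ℂ) ^ 2) * (q (n + 1) : ℂ) * (1 - (q n : ℂ)) * y n * h n n
        ≠ 0 := mul_ne_zero (mul_ne_zero (mul_ne_zero (mul_ne_zero (mul_ne_zero hrc h1r) hqc2)
          (hq1 n)) hyn) Gn
    exact h4 h3
  by_cases hc : ∃ n, q n ≠ 0 ∧ y n ≠ 0
  · obtain ⟨n₀, hqn, hyn⟩ := hc
    have hall : ∀ n, n₀ ≤ n → q n ≠ 0 ∧ y n ≠ 0 := by
      intro n hn
      induction n, hn using Int.leInduction with
      | base => exact ⟨hqn, hyn⟩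
      | succ n _ ih => exact ⟨hstepq n ih.1 ih.2, hstepy n ih.1 ih.2⟩
    refine ⟨n₀, fun n hn => ?_⟩
    obtain ⟨a1, a2⟩ := hall n hn
    obtain ⟨b1, b2⟩ := hall (n + 1) (by omega)
    obtain ⟨G3, G2, Gn⟩ := hI n a1 a2
    obtain ⟨H3, H2, Hn⟩ := hI (n + 1) b1 b2
    rw [add_sub_cancel_right] at H3
    have L1 := hL n (n + 1)
    have L2 := hL n (n + 1 + 1)
    rw [add_sub_cancel_right, H3, G2] at L1
    rw [add_sub_cancel_right, H2, G2] at L2
    have K2 : h n (n + 1 + 1) = h n n := by
      apply mul_left_cancel₀ hrc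
      linear_combination -L2
    have E1 := hQ n (n + 1)
    rw [add_sub_cancel_right, G2, K2] at E1
    have K3 : (q (n + 1) : ℂ) + (q n : ℂ) * (1 - (q (n + 1) : ℂ)) = 0 := by
      have h5 : (r : ℂ) * (1 - (r : ℂ) ^ 2) * h n n *
          ((q (n + 1) : ℂ) + (q n : ℂ) * (1 - (q (n + 1) : ℂ))) = 0 := by
        linear_combination -E1
      rcases mul_eq_zero.1 h5 with h | h
      · exact absurd h (mul_ne_zero (mul_ne_zero hrc h1r) Gn)
      · exact h
    have K4 : q (n + 1) + q n * (1 - q (n + 1)) = 0 := by exact_mod_cast K3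
    rw [hq n, hq (n + 1)] at K4
    have p0 := hν n
    have p1 := hν (n + 1)
    have p2 := hν (n + 1 + 1)
    have e2 : n + 2 = n + 1 + 1 := by ring
    rw [e2]
    field_simp at K4
    nlinarith [K4]
  · exfalso
    push Not at hc
    obtain ⟨n1, _, hyn1⟩ := hyN 0
    obtain ⟨m, ⟨hnm, hqm⟩, hmin⟩ := Int.exists_least_of_bdd (P := fun m => n1 < m ∧ q m ≠ 0)
      ⟨n1, fun z hz => hz.1.le⟩ (by
        obtain ⟨m, hm, hm2⟩ := hqN (n1 + 1)
        exact ⟨m, by omega, hm2⟩)
    obtain ⟨n, ⟨hnm2, hyn⟩, hmax⟩ := Int.exists_greatest_of_bdd (P := fun n => n < m ∧ y n ≠ 0)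
      ⟨m, fun z hz => hz.1.le⟩ ⟨n1, hnm, hyn1⟩
    have hn1 : n1 ≤ n := hmax n1 ⟨hnm, hyn1⟩
    have hq0 : q n = 0 := by
      by_contra h1
      exact hyn (hc n h1)
    have hym : y m = 0 := hc m hqm
    have hqmc : (q m : ℂ) ≠ 0 := by exact_mod_cast hqm
    have hqz : ∀ k, n < k → k < m → q k = 0 := by
      intro k h1 h2
      by_contra h3
      have := hmin k ⟨by omega, h3⟩
      omega
    have hyz : ∀ k, n < k → k ≤ m → y k = 0 := by
      intro k h1 h2
      rcases eq_or_lt_of_le h2 with h3 | h3
      · rw [h3]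
        exact hym
      · by_contra h4
        have := hmax k ⟨h3, h4⟩
        omega
    have hfm : h n m = 0 := by
      have h1 := hQ n m
      rw [hq0] at h1
      simp only [Complex.ofReal_zero, zero_mul] at h1
      rcases mul_eq_zero.1 h1 with h | h
      · exact absurd h (mul_ne_zero h1r hqmc)
      · exact h
    have hD : ∀ k, n < k → k ≤ m → h n k + r * h n (k + 1) = -r * (h n (k - 1) + r * h n k) := by
      intro k h1 h2
      have h3 := hY n k
      rw [hyz k h1 h2] at h3
      have h4 : y n * (h n k + r * h n (k + 1) + r * (h n (k - 1) + r * h n k)) = 0 := by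
        linear_combination -h3
      rcases mul_eq_zero.1 h4 with h | h
      · exact absurd h hyn
      · linear_combination h
    by_cases hcase : m = n + 1
    · subst hcase
      have f2 := hD (n + 1) (by omega) le_rfl
      rw [add_sub_cancel_right, hfm] at f2
      have f3 : h n (n + 1 + 1) = -h n n := by
        apply mul_left_cancel₀ hrc
        linear_combination f2
      have g0 : h (n + 1) n = 0 := by
        have h1 := hY (n + 1) n
        rw [hym] at h1
        simp only [zero_mul] at h1
        rcases mul_eq_zero.1 h1 with h | h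
        · exact absurd h (mul_ne_zero h1r hyn)
        · exact h
      have g1 := hQ (n + 1) (n + 1)
      rw [add_sub_cancel_right, g0] at g1
      have g2 : h (n + 1) (n + 1 + 1) = -r * (2 - (q (n + 1) : ℂ)) * h (n + 1) (n + 1) := by
        apply mul_left_cancel₀ hrc
        apply mul_left_cancel₀ hqmc
        linear_combination -g1
      have l1 := hL n (n + 1)
      rw [add_sub_cancel_right, g0, hfm] at l1
      have l2 := hL n (n + 1 + 1)
      rw [add_sub_cancel_right, hfm, f3, g2] at l2
      have g3 : h (n + 1) (n + 1) = h n n := by linear_combination l1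
      have g4 : h (n + 1) (n + 1) = 0 := by
        have h5 : (r : ℂ) * (q (n + 1) : ℂ) * h (n + 1) (n + 1) = 0 := by
          rw [← g3] at l2
          linear_combination l2
        rcases mul_eq_zero.1 h5 with h | h
        · exact absurd h (mul_ne_zero hrc hqmc)
        · exact h
      exact hA n hyn n (by rw [← g3]; exact g4) hfm
    · have hm2 : n + 2 ≤ m := by omega
      have hq1' : q (n + 1) = 0 := hqz (n + 1) (by omega) (by omega)
      have hy1' : y (n + 1) = 0 := hyz (n + 1) (by omega) (by omega)
      have hxn : h (n + 1) n = 0 := by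
        have h1 := hY (n + 1) n
        rw [hy1'] at h1
        simp only [zero_mul] at h1
        rcases mul_eq_zero.1 h1 with h | h
        · exact absurd h (mul_ne_zero h1r hyn)
        · exact h
      have hxm : h (n + 1) m = 0 := by
        have h1 := hQ (n + 1) m
        rw [hq1'] at h1
        simp only [Complex.ofReal_zero, zero_mul] at h1
        rcases mul_eq_zero.1 h1 with h | h
        · exact absurd h (mul_ne_zero h1r hqmc)
        · exact h
      obtain ⟨D, hDd⟩ : ∃ D, D = h n n + r * h n (n + 1) := ⟨_, rfl⟩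
      have hDv : ∀ j : ℕ, n + j ≤ m → h n (n + j) + r * h n (n + j + 1) = (-r : ℂ) ^ j * D := by
        intro j
        induction j with
        | zero =>
          intro _
          simp [hDd]
        | succ j ih =>
          intro hj
          push_cast at hj
          have a := ih (by omega)
          have h1 := hD (n + j + 1) (by omega) (by omega)
          have e : n + (j : ℤ) + 1 - 1 = n + j := by ring
          rw [e, a] at h1
          push_cast
          rw [← add_assoc, h1]
          ring
      have hxv : ∀ j : ℕ, n + j + 1 ≤ m → h (n + 1) (n + j + 1) =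
          ((j : ℂ) + 1) * (-r : ℂ) ^ j * D := by
        intro j
        induction j with
        | zero =>
          intro hj
          have h1 := hL n (n + 1)
          rw [add_sub_cancel_right, hxn, ← hDd] at h1
          simp only [Nat.cast_zero, add_zero, pow_zero, zero_add]
          linear_combination h1
        | succ j ih =>
          intro hj
          push_cast at hj
          have a := ih (by omega)
          have b := hDv (j + 1) (by push_cast; omega)
          push_cast at b
          rw [← add_assoc] at b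
          have h1 := hL n (n + j + 1 + 1)
          have e : n + (j : ℤ) + 1 + 1 - 1 = n + j + 1 := by ring
          rw [e, a, b] at h1
          push_cast
          rw [← add_assoc]
          linear_combination h1
      obtain ⟨d, hd⟩ := Int.eq_ofNat_of_zero_le (show 0 ≤ m - n - 1 by omega)
      have hm : m = n + d + 1 := by
        have : m - n - 1 = (d : ℤ) := hd
        linarith
      have h3 := hxv d (by omega)
      rw [← hm, hxm] at h3
      have a1 : ((d : ℂ) + 1) ≠ 0 := by exact_mod_cast Nat.succ_ne_zero d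
      have hD0 : D = 0 := by
        rcases mul_eq_zero.1 h3.symm with h | h
        · exact absurd h (mul_ne_zero a1 (pow_ne_zero _ (neg_ne_zero.2 hrc)))
        · exact h
      have h5 := hDv d (by omega)
      rw [hD0, mul_zero, ← hm, hfm, mul_zero, add_zero] at h5
      have e6 : n + (d : ℤ) + 1 = m := hm.symm
      exact hA n hyn (n + d) h5 (by rw [e6]; exact hfm)

end Pool.Agent.W612.WH
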